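import Pool.Agent.H58.DG.TFin

/-!
# Defective edge colouring: the Goldberg-Seymour bound up to a square root (MP_8dcef0_co)

A multigraph on `Fin n` is given by its symmetric multiplicity matrix `m` with zero diagonal; `d` is arbitrary.
(1) If every vertex has degree at most `k d - s`, where `k ≤ (s + 1) ^ 2`, and every set `X` of at most `s + 1` vertices spans at
most `k ⌊d |X| / 2⌋` edges, then the edges can be coloured with `k` colours so that every colour class has maximum degree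
at most `d`.
(2) The same conclusion holds if `d ≥ 1`, all degrees are at most `D`, `D + √(D / d) ≤ k d`, and every set `X` spans at most
`k ⌊d |X| / 2⌋` edges.
-/

set_option autoImplicit false

open Finset

namespace Pool.Agent.Results.MP_8dcef0_co.AsymptoticGoldberg

private theorem small (d n : ℕ) (m : Fin n → Fin n → ℕ) (hs : ∀ i j, m i j = m j i) (k : ℕ) (hk : k ≤ 1)
    (hdeg : ∀ v : Fin n, (∑ u, m v u) ≤ k * d) : ∃ c : Fin n → Fin n → Fin k → ℕ,
      (∀ i j a, c i j a = c j i a) ∧ (∀ i j, ∑ a, c i j a = m i j) ∧ (∀ v a, ∑ u, c v u a ≤ d) := by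
  refine ⟨fun i j _ => m i j, fun i j _ => hs i j, fun i j => ?_, fun v a => ?_⟩
  · rcases Nat.le_one_iff_eq_zero_or_eq_one.1 hk with rfl | rfl
    · have h1 := hdeg i
      have h2 : m i j ≤ ∑ u, m i u := Finset.single_le_sum (fun _ _ => Nat.zero_le _) (Finset.mem_univ j)
      rw [Finset.sum_of_isEmpty]
      omega
    · rw [Finset.sum_const, Finset.card_univ, Fintype.card_fin, one_smul]
  · refine (hdeg v).trans ?_
    nlinarith [Nat.zero_le d]

private theorem main (d n : ℕ) (m : Fin n → Fin n → ℕ) (hs : ∀ i j, m i j = m j i) (h0 : ∀ i, m i i = 0) (k s : ℕ)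
    (hk : k ≤ (s + 1) ^ 2) (hdeg : ∀ v : Fin n, (∑ u, m v u) + s ≤ k * d)
    (hden : ∀ X : Finset (Fin n), X.card ≤ s + 1 → (∑ i ∈ X, ∑ j ∈ X, m i j) ≤ 2 * (k * (d * X.card / 2))) :
    ∃ c : Fin n → Fin n → Fin k → ℕ,
      (∀ i j a, c i j a = c j i a) ∧ (∀ i j, ∑ a, c i j a = m i j) ∧ (∀ v a, ∑ u, c v u a ≤ d) := by
  rcases Nat.eq_zero_or_pos s with rfl | hs1
  · exact small d n m hs k (by simpa using hk) hdeg
  · exact Pool.Agent.H58.DG.matrix_sqrt d n m hs h0 k s hs1 hk hdeg hden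

theorem result :
    (∀ d n : ℕ, ∀ m : Fin n → Fin n → ℕ, (∀ i j, m i j = m j i) → (∀ i, m i i = 0) → ∀ k s : ℕ,
      k ≤ (s + 1) ^ 2 → (∀ v : Fin n, (∑ u, m v u) + s ≤ k * d) →
      (∀ X : Finset (Fin n), X.card ≤ s + 1 → (∑ i ∈ X, ∑ j ∈ X, m i j) ≤ 2 * (k * (d * X.card / 2))) →
      ∃ c : Fin n → Fin n → Fin k → ℕ,
        (∀ i j a, c i j a = c j i a) ∧ (∀ i j, ∑ a, c i j a = m i j) ∧ (∀ v a, ∑ u, c v u a ≤ d)) ∧
    (∀ d n : ℕ, 1 ≤ d → ∀ m : Fin n → Fin n → ℕ, (∀ i j, m i j = m j i) → (∀ i, m i i = 0) → ∀ k D : ℕ,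
      (∀ v : Fin n, (∑ u, m v u) ≤ D) → (D : ℝ) + Real.sqrt (D / d) ≤ k * d →
      (∀ X : Finset (Fin n), (∑ i ∈ X, ∑ j ∈ X, m i j) ≤ 2 * (k * (d * X.card / 2))) →
      ∃ c : Fin n → Fin n → Fin k → ℕ,
        (∀ i j a, c i j a = c j i a) ∧ (∀ i j, ∑ a, c i j a = m i j) ∧ (∀ v a, ∑ u, c v u a ≤ d)) := by
  refine ⟨fun d n m hs h0 k s hk hdeg hden => main d n m hs h0 k s hk hdeg hden, ?_⟩
  intro d n hd m hs h0 k D hD hk hden
  have hd0 : (0 : ℝ) < d := by exact_mod_cast hd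
  have h1 : (D : ℝ) ≤ k * d := le_trans (le_add_of_nonneg_right (Real.sqrt_nonneg _)) hk
  have h2 : D ≤ k * d := by exact_mod_cast h1
  obtain ⟨s, hs2⟩ := Nat.exists_eq_add_of_le h2
  have h3 : ((k * d : ℕ) : ℝ) = D + s := by
    rw [hs2]
    push_cast
    ring
  have h4 : Real.sqrt (D / d) ≤ s := by
    push_cast at h3
    linarith
  have h5 : (D : ℝ) / d ≤ (s : ℝ) ^ 2 := by
    rw [← Real.sqrt_le_sqrt_iff (by positivity), Real.sqrt_sq (by positivity)]
    exact h4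
  have h6 : (D : ℝ) ≤ (s : ℝ) ^ 2 * d := by
    rwa [div_le_iff₀ hd0] at h5
  have h7 : D ≤ s ^ 2 * d := by exact_mod_cast h6
  refine main d n m hs h0 k s ?_ (fun v => ?_) (fun X _ => hden X)
  · have h8 : k * d ≤ (s ^ 2 + s) * d := by
      rw [hs2]
      nlinarith
    have h9 : k ≤ s ^ 2 + s := Nat.le_of_mul_le_mul_right h8 (by omega)
    nlinarith
  · rw [hs2]
    have := hD v
    omega

end Pool.Agent.Results.MP_8dcef0_co.AsymptoticGoldberg
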