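import Pool.Agent.H58.DG.FinalR

/-!
# Defective edge colouring: Goldberg type bounds (MP_8dcef0_co)

A multigraph on `Fin n` is given by its symmetric multiplicity matrix `m` with zero diagonal; `d ≥ 3` is odd.

`Core d m X`: `X` has odd order and is the vertex set of a connected `2 d`-regular submultigraph.  `Col d k m`: the edges can be
coloured with `k` colours so that every colour class has maximum degree at most `d`.

(1) Let every vertex have degree less than `k d`, let every core with at most five vertices span at most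
`k ⌊d |X| / 2⌋` edges, and let every core `X` with at least seven vertices satisfy `∑ v ∈ X, (k d - deg v) ≥ k - 1`.  Then
`Col d k m`.
(2) If every vertex has degree at most `k d - s`, where `k ≤ 7 s + 1`, and every set `X` of three or five vertices spans at
most `k ⌊d |X| / 2⌋` edges, then `Col d k m`.  With `s = 1`: the bound of Q1 holds whenever it is at most `8`.
(3) The bound of Q1 holds for all multigraphs with at most seven vertices.
-/

set_option autoImplicit false

open Finset

namespace Pool.Agent.Results.MP_8dcef0_co.DefectiveGoldberg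

/-- `X` has odd order and is the vertex set of a connected `2 d`-regular submultigraph `r` of `m` -/
def Core (d : ℕ) {n : ℕ} (m : Fin n → Fin n → ℕ) (X : Finset (Fin n)) : Prop :=
  Odd X.card ∧ ∃ r : Fin n → Fin n → ℕ, (∀ i j, r i j = r j i) ∧ (∀ i j, r i j ≤ m i j) ∧
    (∀ i ∈ X, ∑ j ∈ X, r i j = 2 * d) ∧ ∀ Y ⊆ X, Y.Nonempty → Y ≠ X → ∃ i ∈ Y, ∃ j ∈ X, j ∉ Y ∧ r i j ≠ 0

/-- the edges can be coloured with `k` colours so that every colour class has maximum degree at most `d`; `c i j a` is the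
number of edges of colour `a` between `i` and `j` -/
def Col (d k : ℕ) {n : ℕ} (m : Fin n → Fin n → ℕ) : Prop :=
  ∃ c : Fin n → Fin n → Fin k → ℕ,
    (∀ i j a, c i j a = c j i a) ∧ (∀ i j, ∑ a, c i j a = m i j) ∧ (∀ v a, ∑ u, c v u a ≤ d)

private theorem small (d n : ℕ) (m : Fin n → Fin n → ℕ) (hs : ∀ i j, m i j = m j i) (k : ℕ) (hk : k ≤ 1)
    (hdeg : ∀ v : Fin n, (∑ u, m v u) ≤ k * d) : Col d k m := by
  refine ⟨fun i j _ => m i j, fun i j _ => hs i j, fun i j => ?_, fun v a => ?_⟩
  · rcases Nat.le_one_iff_eq_zero_or_eq_one.1 hk with rfl | rfl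
    · have h1 := hdeg i
      have h2 : m i j ≤ ∑ u, m i u := Finset.single_le_sum (fun _ _ => Nat.zero_le _) (Finset.mem_univ j)
      rw [Finset.sum_of_isEmpty]
      omega
    · rw [Finset.sum_const, Finset.card_univ, Fintype.card_fin, one_smul]
  · refine (hdeg v).trans ?_
    nlinarith [Nat.zero_le d]

private theorem general (d n : ℕ) (hd : Odd d) (hd3 : 3 ≤ d) (m : Fin n → Fin n → ℕ) (hs : ∀ i j, m i j = m j i)
    (h0 : ∀ i, m i i = 0) (k : ℕ) (hdeg : ∀ v : Fin n, (∑ u, m v u) + 1 ≤ k * d)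
    (hden : ∀ X : Finset (Fin n), Core d m X → X.card ≤ 5 → (∑ i ∈ X, ∑ j ∈ X, m i j) ≤ 2 * (k * (d * X.card / 2)))
    (hbig : ∀ X : Finset (Fin n), Core d m X → 7 ≤ X.card → k ≤ (∑ v ∈ X, (k * d - ∑ u, m v u)) + 1) : Col d k m := by
  refine Pool.Agent.H58.DG.matrix_core d n m hs h0 k hd hd3 hdeg (fun X hX h35 => hden X hX ?_) (fun X hX h7 => hbig X hX h7)
  omega

theorem result : ∀ d n : ℕ, Odd d → 3 ≤ d → ∀ m : Fin n → Fin n → ℕ, (∀ i j, m i j = m j i) → (∀ i, m i i = 0) →
    (∀ k : ℕ, (∀ v : Fin n, (∑ u, m v u) + 1 ≤ k * d) →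
      (∀ X : Finset (Fin n), Core d m X → X.card ≤ 5 → (∑ i ∈ X, ∑ j ∈ X, m i j) ≤ 2 * (k * (d * X.card / 2))) →
      (∀ X : Finset (Fin n), Core d m X → 7 ≤ X.card → k ≤ (∑ v ∈ X, (k * d - ∑ u, m v u)) + 1) →
      Col d k m) ∧
    (∀ k s : ℕ, k ≤ 7 * s + 1 → (∀ v : Fin n, (∑ u, m v u) + s ≤ k * d) →
      (∀ X : Finset (Fin n), X.card = 3 ∨ X.card = 5 → (∑ i ∈ X, ∑ j ∈ X, m i j) ≤ 2 * (k * (d * X.card / 2))) →
      Col d k m) ∧
    (n ≤ 7 → ∀ k : ℕ, (∀ v : Fin n, (∑ u, m v u) + 1 ≤ k * d) →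
      (∀ X : Finset (Fin n), Odd X.card → 3 ≤ X.card → (∑ i ∈ X, ∑ j ∈ X, m i j) ≤ 2 * (k * (d * X.card / 2))) →
      Col d k m) := by
  intro d n hd hd3 m hs h0
  have hcard : ∀ X : Finset (Fin n), Core d m X → X.card ≤ 5 → X.card = 3 ∨ X.card = 5 := by
    intro X hX h5
    obtain ⟨t, ht⟩ := hX.1
    have h1 : X.card ≠ 1 := by
      intro h1
      obtain ⟨v, rfl⟩ := Finset.card_eq_one.1 h1
      obtain ⟨r, _, hr, h2, _⟩ := hX.2
      have h3 := h2 v (Finset.mem_singleton_self v)
      have h4 := hr v v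
      rw [Finset.sum_singleton] at h3
      rw [h0 v] at h4
      omega
    omega
  refine ⟨fun k hdeg hden hbig => general d n hd hd3 m hs h0 k hdeg hden hbig, ?_, ?_⟩
  · intro k s hks hdeg hden
    rcases Nat.eq_zero_or_pos s with rfl | hs1
    · exact small d n m hs k hks hdeg
    · refine general d n hd hd3 m hs h0 k (fun v => ?_) (fun X hX h5 => hden X (hcard X hX h5)) (fun X _ h7 => ?_)
      · have h1 := hdeg v
        omega
      · have h1 : ∑ v ∈ X, s ≤ ∑ v ∈ X, (k * d - ∑ u, m v u) :=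
          Finset.sum_le_sum fun v _ => by
            have h2 := hdeg v
            omega
        rw [Finset.sum_const, smul_eq_mul] at h1
        have h2 : 7 * s ≤ X.card * s := Nat.mul_le_mul_right s h7
        omega
  · intro hn k hdeg hden
    refine general d n hd hd3 m hs h0 k hdeg (fun X hX h5 => ?_) (fun X hX h7 => ?_)
    · rcases hcard X hX h5 with h1 | h1
      · exact hden X hX.1 (by omega)
      · exact hden X hX.1 (by omega)
    · have h1 : X.card ≤ n := by
        have h2 := Finset.card_le_univ X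
        rwa [Fintype.card_fin] at h2
      have hn7 : n = 7 := by omega
      have hX7 : X.card = 7 := by omega
      have hXu : X = Finset.univ := Finset.eq_univ_of_card X (by rw [Fintype.card_fin]; omega)
      have h2 := hden X hX.1 (by omega)
      have h3 : (∑ v ∈ X, (k * d - ∑ u, m v u)) + ∑ i ∈ X, ∑ j ∈ X, m i j = 7 * (k * d) := by
        rw [← Finset.sum_add_distrib]
        have h4 : ∀ v ∈ X, (k * d - ∑ u, m v u) + ∑ j ∈ X, m v j = k * d := by
          intro v _
          rw [hXu]
          have h5 := hdeg v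
          omega
        rw [Finset.sum_congr rfl h4, Finset.sum_const, hX7, smul_eq_mul]
      obtain ⟨t, ht⟩ := hd
      have h6 : 2 * (k * (d * X.card / 2)) + k = 7 * (k * d) := by
        rw [hX7]
        have h7 : d * 7 / 2 = 7 * t + 3 := by omega
        rw [h7, ht]
        ring
      omega

end Pool.Agent.Results.MP_8dcef0_co.DefectiveGoldberg
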