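import Pool.Agent.H77.Df.Fin

/-!
# Defective edge colouring: a local Vizing type theorem (MP_8dcef0_co)

A multigraph on `Fin n` is given by its symmetric multiplicity matrix `m` with zero diagonal; `k d - ∑ u, m z u` is the
excess of the vertex `z` (positive by the first hypothesis).  If for every vertex `y` and every non-empty set `F` of
neighbours of `y` the number of edges between `y` and `F` is at most `d` plus `d` times the sum of the excesses over `F`
(or the excesses of `y` and `F` sum to more than `k - 2`), then there is a colouring with `k` colours and defect `d`.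
As every excess is at least `1`, the condition holds if all multiplicities are at most `d`.
-/

set_option autoImplicit false

open Finset

namespace Pool.Agent.Results.MP_8dcef0_co.MultiplicityLocal

theorem result : ∀ d n : ℕ, ∀ m : Fin n → Fin n → ℕ,
    (∀ i j, m i j = m j i) → (∀ i, m i i = 0) → ∀ k : ℕ,
    (∀ v : Fin n, (∑ u, m v u) + 1 ≤ k * d) →
    (∀ (y : Fin n) (F : Finset (Fin n)), F.Nonempty → y ∉ F → (∀ z ∈ F, 0 < m y z) →
      (∑ z ∈ F, m y z ≤ d + d * ∑ z ∈ F, (k * d - ∑ u, m z u)) ∨
      k < ∑ z ∈ insert y F, (k * d - ∑ u, m z u) + 2) →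
    ∃ c : Fin n → Fin n → Fin k → ℕ,
      (∀ i j a, c i j a = c j i a) ∧ (∀ i j, ∑ a, c i j a = m i j) ∧ (∀ v a, ∑ u, c v u a ≤ d) :=
  fun d n m hs h0 k hdeg hloc => Pool.Agent.H77.Df.matrix_local d n m hs h0 k hdeg hloc

end Pool.Agent.Results.MP_8dcef0_co.MultiplicityLocal
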