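import Pool.Agent.H28.NB.Glue

/-!
# Defective edge colouring when the odd edges form a star or a triangle (MP_8dcef0_co)

A loopless multigraph on `Fin n` is given by its symmetric multiplicity matrix `m` with zero diagonal; `f v` is the capacity
of the vertex `v`.  `A` is a set of vertices such that any two edges, each of which has both ends in `A` or both ends outside
`A`, have a common end: the graph becomes bipartite after deleting a set of pairwise adjacent edges.  Then the edges can be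
coloured with `k` colours such that every colour occurs at most `f v` times at every vertex `v` if and only if every set `X`
spans at most `k ⌊f(X) / 2⌋` edges and every degree is at most `k f(v)`.  The case `f v = d` for all `v` is the setting
of Q1.
-/

set_option autoImplicit false

open Finset

namespace Pool.Agent.Results.MP_8dcef0_co.StarOrTriangle

private theorem even_sum (n : ℕ) (c : Fin n → Fin n → ℕ) (hs : ∀ i j, c i j = c j i) (h0 : ∀ i, c i i = 0)
    (X : Finset (Fin n)) : Even (∑ i ∈ X, ∑ j ∈ X, c i j) := by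
  induction X using Finset.induction_on with
  | empty => simp
  | insert a X ha ih =>
    have h1 : ∑ i ∈ insert a X, ∑ j ∈ insert a X, c i j
        = (∑ i ∈ X, ∑ j ∈ X, c i j) + 2 * ∑ j ∈ X, c a j := by
      rw [sum_insert ha]
      simp_rw [sum_insert ha]
      rw [sum_add_distrib, h0, sum_congr rfl (fun i _ => hs i a)]
      ring
    rw [h1]
    exact ih.add (even_two_mul _)

private theorem nec (n : ℕ) (m : Fin n → Fin n → ℕ) (f : Fin n → ℕ) (k : ℕ) (h0 : ∀ i, m i i = 0)
    (c : Fin n → Fin n → Fin k → ℕ) (hs : ∀ i j a, c i j a = c j i a) (hc : ∀ i j, ∑ a, c i j a = m i j)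
    (hd : ∀ v a, ∑ u, c v u a ≤ f v) :
    (∀ X : Finset (Fin n), (∑ i ∈ X, ∑ j ∈ X, m i j) ≤ 2 * (k * ((∑ i ∈ X, f i) / 2))) ∧
      (∀ v : Fin n, (∑ u, m v u) ≤ k * f v) := by
  have hz : ∀ a i, c i i a = 0 := fun a i =>
    (sum_eq_zero_iff.1 ((hc i i).trans (h0 i))) a (mem_univ a)
  constructor
  · intro X
    have h1 : ∑ i ∈ X, ∑ j ∈ X, m i j = ∑ a : Fin k, ∑ i ∈ X, ∑ j ∈ X, c i j a := by
      rw [sum_congr rfl fun i _ => (sum_congr rfl fun j _ => (hc i j).symm).trans sum_comm]
      exact sum_comm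
    have h2 : ∀ a : Fin k, ∑ i ∈ X, ∑ j ∈ X, c i j a ≤ 2 * ((∑ i ∈ X, f i) / 2) := by
      intro a
      have h3 := even_sum n (fun i j => c i j a) (fun i j => hs i j a) (hz a) X
      have h4 : ∑ i ∈ X, ∑ j ∈ X, c i j a ≤ ∑ i ∈ X, f i :=
        sum_le_sum fun i _ => (sum_le_sum_of_subset (subset_univ X)).trans (hd i a)
      obtain ⟨t, ht⟩ := h3
      omega
    rw [h1]
    refine (sum_le_sum fun a _ => h2 a).trans (le_of_eq ?_)
    rw [sum_const, card_univ, Fintype.card_fin, smul_eq_mul]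
    ring
  · intro v
    have h1 : ∑ u, m v u = ∑ a : Fin k, ∑ u, c v u a := by
      rw [sum_congr rfl fun u _ => (hc v u).symm]
      exact sum_comm
    rw [h1]
    refine (sum_le_sum fun a _ => hd v a).trans (le_of_eq ?_)
    rw [sum_const, card_univ, Fintype.card_fin, smul_eq_mul]

theorem result :
    ∀ (n : ℕ) (m : Fin n → Fin n → ℕ) (f : Fin n → ℕ) (A : Finset (Fin n)) (k : ℕ),
      (∀ i j, m i j = m j i) → (∀ i, m i i = 0) →
      (∀ i j i' j', m i j ≠ 0 → m i' j' ≠ 0 → (i ∈ A ↔ j ∈ A) → (i' ∈ A ↔ j' ∈ A) →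
        i = i' ∨ i = j' ∨ j = i' ∨ j = j') →
      ((∃ c : Fin n → Fin n → Fin k → ℕ,
          (∀ i j a, c i j a = c j i a) ∧ (∀ i j, ∑ a, c i j a = m i j) ∧ (∀ v a, ∑ u, c v u a ≤ f v)) ↔
        (∀ X : Finset (Fin n), (∑ i ∈ X, ∑ j ∈ X, m i j) ≤ 2 * (k * ((∑ i ∈ X, f i) / 2))) ∧
        (∀ v : Fin n, (∑ u, m v u) ≤ k * f v)) := by
  intro n m f A k hs h0 hadj
  constructor
  · rintro ⟨c, h1, h2, h3⟩
    exact nec n m f k h0 c h1 h2 h3
  · rintro ⟨h1, h2⟩
    exact Pool.Agent.H28.NB.mainAdj m f hs h0 A hadj k h1 h2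

end Pool.Agent.Results.MP_8dcef0_co.StarOrTriangle
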